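import Pool.Agent.Run7.h897.QU.Iface

/-!
# U1: log-convex sequences
-/

open Pool.Agent.Run7.h897.QU

namespace Run7.h4.QU

theorem t_U1 : S_U1 := by
  intro c m K h1 h2 h3 j hj hc
  have hnn : ∀ i, 1 ≤ i → 0 ≤ c (2 * i) := by
    intro i hi
    have h4 := h1 i j hi hj
    by_contra hneg
    push Not at hneg
    have h5 : c (2 * i) * c (2 * j) < 0 := mul_neg_of_neg_of_pos hneg hc
    linarith [sq_nonneg (c (i + j))]
  have key : ∀ k : ℕ, c (2 * j) ^ (2 ^ k) ≤ c (2 * (2 ^ k * (j - 1) + 1)) := by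
    intro k
    induction k with
    | zero =>
      have h4 : 2 ^ 0 * (j - 1) + 1 = j := by
        rw [pow_zero, one_mul]; omega
      rw [h4, pow_zero, pow_one]
    | succ k ih =>
      have e := h1 1 (2 ^ (k + 1) * (j - 1) + 1) le_rfl (by omega)
      have e1 : 1 + (2 ^ (k + 1) * (j - 1) + 1) = 2 * (2 ^ k * (j - 1) + 1) := by ring
      rw [e1] at e
      calc c (2 * j) ^ (2 ^ (k + 1)) = (c (2 * j) ^ (2 ^ k)) ^ 2 := by rw [← pow_mul, pow_succ]
        _ ≤ c (2 * (2 ^ k * (j - 1) + 1)) ^ 2 := pow_le_pow_left₀ (by positivity) ih 2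
        _ ≤ c (2 * 1) * c (2 * (2 ^ (k + 1) * (j - 1) + 1)) := e
        _ ≤ 1 * c (2 * (2 ^ (k + 1) * (j - 1) + 1)) :=
          mul_le_mul_of_nonneg_right h3 (hnn _ (by omega))
        _ = _ := one_mul _
  by_contra hcon
  push Not at hcon
  obtain ⟨r, hr⟩ : ∃ r, r = c (2 * j) * Real.exp (m * (2 * j - 2)) := ⟨_, rfl⟩
  have hr1 : 1 < r := by
    have h4 := mul_lt_mul_of_pos_right hcon (Real.exp_pos (m * (2 * j - 2)))
    rw [← Real.exp_add, neg_add_cancel, Real.exp_zero] at h4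
    rw [hr]; exact h4
  obtain ⟨n, hn⟩ := pow_unbounded_of_one_lt (K * Real.exp (-(2 * m))) hr1
  have h5 : r ^ n ≤ r ^ (2 ^ n) := pow_le_pow_right₀ hr1.le Nat.lt_two_pow_self.le
  have h6 : r ^ (2 ^ n) ≤ K * Real.exp (-(2 * m)) := by
    have h7 := (key n).trans ((le_abs_self _).trans (h2 (2 * (2 ^ n * (j - 1) + 1)) (by omega)))
    have h8 : r ^ (2 ^ n) = c (2 * j) ^ (2 ^ n) * Real.exp ((2 ^ n : ℕ) * (m * (2 * j - 2))) := by
      rw [hr, mul_pow, Real.exp_nat_mul]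
    rw [h8]
    refine (mul_le_mul_of_nonneg_right h7 (Real.exp_pos _).le).trans (le_of_eq ?_)
    rw [mul_assoc, ← Real.exp_add]
    congr 2
    push_cast [Nat.cast_sub hj]
    ring
  linarith

end Run7.h4.QU
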